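import Mathlib

/-!
# A triplet cover of a binary phylogenetic tree which is not shellable

The tree has `12` leaves and the triplet cover `30` pairs. No pair outside the cover can be added by
a first shelling step.
-/

set_option autoImplicit false

namespace Pool.Agent.Results.MP_66d22e_co.TwelveLeaves

section Defs

variable {V : Type}

/-- the leaves of `T`; they form the set `X` -/
def leaves (T : SimpleGraph V) : Set V := {v | (T.neighborSet v).ncard = 1}

/-- `T` is a binary phylogenetic tree (with leaf set `X = leaves T`, at least three leaves) -/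
def IsBinaryPhylogenetic (T : SimpleGraph V) : Prop :=
  T.IsTree ∧ (∀ v, (T.neighborSet v).ncard = 1 ∨ (T.neighborSet v).ncard = 3) ∧
    3 ≤ (leaves T).ncard

/-- the set of two-element subsets of `X` -/
def pairs (T : SimpleGraph V) : Set (Sym2 V) := {e | ¬ e.IsDiag ∧ ∀ v ∈ e, v ∈ leaves T}

/-- `a` and `b` lie in different connected components of `T` with `v` removed -/
def Sep (T : SimpleGraph V) (v a b : V) : Prop :=
  ∃ (ha : a ≠ v) (hb : b ≠ v), ¬ (T.induce {w | w ≠ v}).Reachable ⟨a, ha⟩ ⟨b, hb⟩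

/-- the triple `abc` of leaves supports `v` relative to `S` -/
def Supports (T : SimpleGraph V) (S : Set (Sym2 V)) (v a b c : V) : Prop :=
  a ∈ leaves T ∧ b ∈ leaves T ∧ c ∈ leaves T ∧ Sep T v a b ∧ Sep T v a c ∧ Sep T v b c ∧
    s(a, b) ∈ S ∧ s(a, c) ∈ S ∧ s(b, c) ∈ S

/-- `S` is a triplet cover for `T` -/
def IsTripletCover (T : SimpleGraph V) (S : Set (Sym2 V)) : Prop :=
  S ⊆ pairs T ∧ ∀ v, v ∉ leaves T → ∃ a b c, Supports T S v a b c

/-- the restriction of `T` to `{x, a, y, b}` is the quartet `xa|yb`: the path from `x` to `a` and the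
path from `y` to `b` are vertex-disjoint -/
def IsQuartet (T : SimpleGraph V) (x a y b : V) : Prop :=
  ∃ (p : T.Walk x a) (q : T.Walk y b), p.IsPath ∧ q.IsPath ∧ ∀ w, ¬ (w ∈ p.support ∧ w ∈ q.support)

/-- the pair `e = ab` can be added to `S`: there are distinct leaves `x, y` different from `a, b` such
that `T` restricted to `{a, b, x, y}` is the quartet `xa|yb` and the other five pairs lie in `S` -/
def ShellStep (T : SimpleGraph V) (S : Set (Sym2 V)) (e : Sym2 V) : Prop :=
  ∃ a b x y : V, e = s(a, b) ∧ x ∈ leaves T ∧ y ∈ leaves T ∧ x ≠ y ∧ x ≠ a ∧ x ≠ b ∧ y ≠ a ∧ y ≠ b ∧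
    IsQuartet T x a y b ∧ s(a, x) ∈ S ∧ s(a, y) ∈ S ∧ s(b, x) ∈ S ∧ s(b, y) ∈ S ∧ s(x, y) ∈ S

/-- `S` is `T`-shellable: the pairs outside `S` have an ordering in which every pair can be added to
`S` together with the earlier pairs -/
def Shellable (T : SimpleGraph V) (S : Set (Sym2 V)) : Prop :=
  ∃ l : List (Sym2 V), l.Nodup ∧ (∀ e, e ∈ l ↔ e ∈ pairs T ∧ e ∉ S) ∧
    ∀ (i : ℕ) (hi : i < l.length), ShellStep T (S ∪ {e | e ∈ l.take i}) l[i]

end Defs

/-! ### the example -/

/-- parents; the root `0` is its own parent -/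
def par : Fin 22 → Fin 22 := ![0, 0, 0, 0, 1, 1, 2, 2, 3, 3, 5, 5, 7, 7, 10, 10, 11, 11, 13, 13, 19,
  19]

/-- the tree -/
def T : SimpleGraph (Fin 22) where
  Adj i j := i ≠ j ∧ (par i = j ∨ par j = i)
  symm := ⟨fun i j h => ⟨h.1.symm, h.2.symm⟩⟩
  loopless := ⟨fun i h => h.1 rfl⟩

instance : DecidableRel T.Adj := fun i j => by unfold T; infer_instance

/-- rows of the pair matrix, as bit masks -/
def mask : Fin 22 → ℕ := ![0, 0, 0, 0, 2396224, 0, 1147408, 0, 184832, 1118528, 0, 0, 2360080, 0,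
  3309824, 147792, 1442368, 377088, 2297872, 0, 2179648, 1331216]

/-- the pairs of the triplet cover -/
def inS (i j : Fin 22) : Bool := (mask i).testBit j

theorem inS_symm : ∀ i j, inS i j = inS j i := by decide +kernel

/-- the triplet cover -/
def S : Set (Sym2 (Fin 22)) := {e | Sym2.lift ⟨fun i j => inS i j, inS_symm⟩ e = true}

theorem mem_S (i j : Fin 22) : s(i, j) ∈ S ↔ inS i j = true := Iff.rfl

/-- is a leaf -/
def lf (i : Fin 22) : Bool := decide (i ∈ ([4, 6, 8, 9, 12, 14, 15, 16, 17, 18, 20, 21] : List (Fin 22)))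

/-- component labels for `T` without `v` -/
def lab (v z : Fin 22) : ℕ := (match v.val with
  | 0 => [3, 1, 2, 3, 1, 1, 2, 2, 3, 3, 1, 1, 2, 2, 1, 1, 1, 1, 2, 2, 2, 2]
  | 1 => [0, 3, 0, 0, 1, 2, 0, 0, 0, 0, 2, 2, 0, 0, 2, 2, 2, 2, 0, 0, 0, 0]
  | 2 => [0, 0, 3, 0, 0, 0, 1, 2, 0, 0, 0, 0, 2, 2, 0, 0, 0, 0, 2, 2, 2, 2]
  | 3 => [0, 0, 0, 3, 0, 0, 0, 0, 1, 2, 0, 0, 0, 0, 0, 0, 0, 0, 0, 0, 0, 0]
  | 5 => [0, 0, 0, 0, 0, 3, 0, 0, 0, 0, 1, 2, 0, 0, 1, 1, 2, 2, 0, 0, 0, 0]
  | 7 => [0, 0, 0, 0, 0, 0, 0, 3, 0, 0, 0, 0, 1, 2, 0, 0, 0, 0, 2, 2, 2, 2]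
  | 10 => [0, 0, 0, 0, 0, 0, 0, 0, 0, 0, 3, 0, 0, 0, 1, 2, 0, 0, 0, 0, 0, 0]
  | 11 => [0, 0, 0, 0, 0, 0, 0, 0, 0, 0, 0, 3, 0, 0, 0, 0, 1, 2, 0, 0, 0, 0]
  | 13 => [0, 0, 0, 0, 0, 0, 0, 0, 0, 0, 0, 0, 0, 3, 0, 0, 0, 0, 1, 2, 2, 2]
  | 19 => [0, 0, 0, 0, 0, 0, 0, 0, 0, 0, 0, 0, 0, 0, 0, 0, 0, 0, 0, 3, 1, 2]
  | _ => []).getD z 0

theorem lab_adj : ∀ v x y : Fin 22, T.Adj x y → x ≠ v → y ≠ v → lab v x = lab v y := by
  decide +kernel

theorem sep_of_lab (v a b : Fin 22) (ha : a ≠ v) (hb : b ≠ v) (h : lab v a ≠ lab v b) :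
    Sep T v a b := by
  refine ⟨ha, hb, fun hr => ?_⟩
  have key : ∀ x y : {w : Fin 22 | w ≠ v}, (T.induce {w | w ≠ v}).Reachable x y →
      lab v x = lab v y := by
    intro x y hxy
    obtain ⟨p⟩ := hxy
    induction p with
    | nil => rfl
    | @cons x y z hadj _ ih => exact (lab_adj v _ _ hadj x.2 y.2).trans ih
  exact h (key _ _ hr)

theorem mem_support_of_lab (v : Fin 22) : ∀ (x a : Fin 22) (p : T.Walk x a), lab v x ≠ lab v a →
    v ∈ p.support := by
  intro x a p
  induction p with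
  | nil => intro h; exact absurd rfl h
  | @cons x y a hadj p ih =>
    intro h
    rw [SimpleGraph.Walk.support_cons, List.mem_cons]
    by_cases hx : x = v
    · exact Or.inl hx.symm
    · by_cases hy : y = v
      · right
        rw [← hy]
        exact p.start_mem_support
      · right
        exact ih (by rw [← lab_adj v x y hadj hx hy]; exact h)

theorem ncard_nbr (v : Fin 22) : (T.neighborSet v).ncard = if lf v = true then 1 else 3 := by
  have h : (T.neighborSet v).ncard = (Finset.univ.filter (fun w => T.Adj v w)).card := by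
    rw [← Set.ncard_coe_finset]
    congr 1
    ext w
    simp
  rw [h]
  clear h
  revert v
  decide +kernel

theorem mem_leaves (v : Fin 22) : v ∈ leaves T ↔ lf v = true := by
  unfold leaves
  rw [Set.mem_ofPred_eq, ncard_nbr]
  split_ifs with h
  · simp [h]
  · simp [h]

theorem par_lt : ∀ i : Fin 22, i ≠ 0 → par i < i := by decide +kernel

theorem connected : T.Connected := by
  have h0 : ∀ (n : ℕ) (i : Fin 22), i.val = n → T.Reachable 0 i := by
    intro n
    induction n using Nat.strong_induction_on with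
    | _ n ih =>
      intro i hi
      by_cases h : i = 0
      · rw [h]
      · have hlt := par_lt i h
        have h1 := ih (par i).val (by rw [← hi]; exact hlt) (par i) rfl
        refine h1.trans (SimpleGraph.Adj.reachable ⟨fun e => ?_, Or.inr rfl⟩)
        rw [e] at hlt
        exact lt_irrefl _ hlt
  exact SimpleGraph.Connected.mk (fun x y => (h0 _ x rfl).symm.trans (h0 _ y rfl))

theorem card_edges : T.edgeFinset.card = 21 := by decide +kernel

theorem isTree : T.IsTree := by
  rw [SimpleGraph.isTree_iff_connected_and_card]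
  refine ⟨connected, ?_⟩
  rw [Nat.card_eq_fintype_card, Nat.card_eq_fintype_card, ← SimpleGraph.edgeFinset_card, card_edges]
  simp

/-- supporting triples -/
def supp : Fin 22 → Fin 22 × Fin 22 × Fin 22 := ![(6, 9, 16), (4, 6, 15), (6, 9, 20), (8, 9, 12),
  (0, 0, 0), (8, 14, 17), (0, 0, 0), (4, 12, 18), (0, 0, 0), (0, 0, 0), (8, 14, 15), (16, 17, 18),
  (0, 0, 0), (4, 18, 21), (0, 0, 0), (0, 0, 0), (0, 0, 0), (0, 0, 0), (0, 0, 0), (14, 20, 21),
  (0, 0, 0), (0, 0, 0)]

theorem supp_ok : ∀ v : Fin 22, lf v = false →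
    (lf (supp v).1 = true ∧ lf (supp v).2.1 = true ∧ lf (supp v).2.2 = true) ∧
    ((supp v).1 ≠ v ∧ (supp v).2.1 ≠ v ∧ (supp v).2.2 ≠ v) ∧
    (lab v (supp v).1 ≠ lab v (supp v).2.1 ∧ lab v (supp v).1 ≠ lab v (supp v).2.2 ∧
      lab v (supp v).2.1 ≠ lab v (supp v).2.2) ∧
    (inS (supp v).1 (supp v).2.1 = true ∧ inS (supp v).1 (supp v).2.2 = true ∧
      inS (supp v).2.1 (supp v).2.2 = true) := by
  decide +kernel

theorem inS_leaf : ∀ i j : Fin 22, inS i j = true → i ≠ j ∧ lf i = true ∧ lf j = true := by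
  decide +kernel

theorem cover : IsTripletCover T S := by
  refine ⟨?_, ?_⟩
  · intro e
    induction e using Sym2.ind with
    | _ i j =>
      intro he
      obtain ⟨h1, h2, h3⟩ := inS_leaf i j ((mem_S i j).1 he)
      refine ⟨by simpa using h1, fun v hv => ?_⟩
      rcases Sym2.mem_iff.1 hv with rfl | rfl
      · exact (mem_leaves _).2 h2
      · exact (mem_leaves _).2 h3
  · intro v hv
    rw [mem_leaves] at hv
    obtain ⟨⟨a1, a2, a3⟩, ⟨b1, b2, b3⟩, ⟨c1, c2, c3⟩, ⟨d1, d2, d3⟩⟩ := supp_ok v (by simpa using hv)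
    exact ⟨_, _, _, (mem_leaves _).2 a1, (mem_leaves _).2 a2, (mem_leaves _).2 a3,
      sep_of_lab v _ _ b1 b2 c1, sep_of_lab v _ _ b1 b3 c2, sep_of_lab v _ _ b2 b3 c3,
      (mem_S _ _).2 d1, (mem_S _ _).2 d2, (mem_S _ _).2 d3⟩

/-- the check that no pair can be added -/
def stuck : Bool :=
  (List.finRange 22).all (fun a => (List.finRange 22).all (fun b =>
    !(lf a && lf b && decide (a ≠ b) && !inS a b) ||
    (List.finRange 22).all (fun x => !(inS a x && inS b x) ||
      (List.finRange 22).all (fun y => !(inS a y && inS b y && inS x y) ||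
        (List.finRange 22).any (fun v => !lf v && decide (lab v x ≠ lab v a) &&
          decide (lab v y ≠ lab v b))))))

theorem stuck_true : stuck = true := by decide +kernel

theorem not_step (e : Sym2 (Fin 22)) (he : e ∈ pairs T) (heS : e ∉ S) : ¬ ShellStep T S e := by
  rintro ⟨a, b, x, y, rfl, hx, hy, hxy, hxa, hxb, hya, hyb, ⟨p, q, _, _, hpq⟩, h1, h2, h3, h4, h5⟩
  rw [mem_S] at h1 h2 h3 h4 h5 heS
  have hab : a ≠ b := by simpa using he.1
  have hla : lf a = true := (mem_leaves a).1 (he.2 a (by simp))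
  have hlb : lf b = true := (mem_leaves b).1 (he.2 b (by simp))
  have h := stuck_true
  unfold stuck at h
  have h := List.all_eq_true.1 (List.all_eq_true.1 h a (List.mem_finRange a)) b (List.mem_finRange b)
  have hS : inS a b = false := by simpa using heS
  simp only [hla, hlb, hab, hS, ne_eq, not_false_eq_true, decide_true, Bool.not_false, Bool.and_self,
    Bool.not_true, Bool.false_or] at h
  have h := List.all_eq_true.1 h x (List.mem_finRange x)
  simp only [h1, h3, Bool.and_self, Bool.not_true, Bool.false_or] at h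
  have h := List.all_eq_true.1 h y (List.mem_finRange y)
  simp only [h2, h4, h5, Bool.and_self, Bool.not_true, Bool.false_or] at h
  obtain ⟨v, _, hv⟩ := List.any_eq_true.1 h
  simp only [Bool.and_eq_true, decide_eq_true_eq] at hv
  exact hpq v ⟨mem_support_of_lab v x a p hv.1.2, mem_support_of_lab v y b q hv.2⟩

theorem missing : s((4 : Fin 22), 8) ∈ pairs T ∧ s((4 : Fin 22), 8) ∉ S := by
  refine ⟨⟨by simp, fun v hv => ?_⟩, ?_⟩
  · rcases Sym2.mem_iff.1 hv with rfl | rfl
    · exact (mem_leaves _).2 (by decide)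
    · exact (mem_leaves _).2 (by decide)
  · rw [mem_S]
    decide +kernel

/-- there is a binary phylogenetic tree with `12` leaves and a triplet cover (with `30` pairs) for it
which is not shellable -/
theorem result : ∃ (V : Type) (_ : Finite V) (T : SimpleGraph V) (S : Set (Sym2 V)),
    IsBinaryPhylogenetic T ∧ (leaves T).ncard = 12 ∧ IsTripletCover T S ∧ S.ncard = 30 ∧
      ¬ Shellable T S := by
  have hl : (leaves T).ncard = 12 := by
    have : leaves T = ((Finset.univ.filter (fun v => lf v = true) : Finset (Fin 22)) : Set _) := by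
      ext v
      simp [mem_leaves]
    rw [this, Set.ncard_coe_finset]
    decide +kernel
  refine ⟨Fin 22, inferInstance, T, S, ⟨isTree, fun v => ?_, by rw [hl]; norm_num⟩, hl, cover, ?_, ?_⟩
  · rw [ncard_nbr]
    split_ifs
    · exact Or.inl rfl
    · exact Or.inr rfl
  · have : S = ((Finset.univ.filter (fun e : Sym2 (Fin 22) =>
        Sym2.lift ⟨fun i j => inS i j, inS_symm⟩ e = true) : Finset _) : Set _) := by
      ext v
      simp [S]
    rw [this, Set.ncard_coe_finset]
    decide +kernel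
  · rintro ⟨l, _, hl, hstep⟩
    have hm := (hl _).2 missing
    have hpos : 0 < l.length := List.length_pos_of_mem hm
    have h0 := hstep 0 hpos
    have he := (hl l[0]).1 (List.getElem_mem hpos)
    refine not_step _ he.1 he.2 ?_
    simpa using h0

end Pool.Agent.Results.MP_66d22e_co.TwelveLeaves
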